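import Pool.Agent.H.Tcs70.Oct

set_option autoImplicit false
set_option linter.unusedSectionVars false

namespace Tcs70

open Finset

variable {V : Type*} [Fintype V] [DecidableEq V]

lemma exists_perm {X : Type*} [Fintype X] (f g : X → V) (hf : Function.Injective f)
    (hg : Function.Injective g) : ∃ σ : Equiv.Perm V, ∀ x, σ (f x) = g x := by
  classical
  let ε : {x // x ∈ Set.range f} ≃ {x // x ∈ Set.range g} :=
    (Equiv.ofInjective f hf).symm.trans (Equiv.ofInjective g hg)
  refine ⟨ε.extendSubtype, fun x => ?_⟩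
  rw [Equiv.extendSubtype_apply_of_mem ε (f x) ⟨x, rfl⟩]
  have h1 : (⟨f x, ⟨x, rfl⟩⟩ : {x // x ∈ Set.range f}) = Equiv.ofInjective f hf x := rfl
  simp only [ε, Equiv.trans_apply]
  rw [h1, Equiv.symm_apply_apply]
  rfl

lemma inj4 {a b c d : V} (hab : a ≠ b) (hac : a ≠ c) (had : a ≠ d) (hbc : b ≠ c) (hbd : b ≠ d)
    (hcd : c ≠ d) : Function.Injective ![a, b, c, d] := by
  intro i j
  fin_cases i <;> fin_cases j <;>
    simp [hab, hac, had, hbc, hbd, hcd, hab.symm, hac.symm, had.symm, hbc.symm, hbd.symm, hcd.symm]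

lemma notMem4 {a b c d : V} {S : Finset V} (ha : a ∉ S) (hb : b ∉ S) (hc : c ∉ S) (hd : d ∉ S)
    (i : Fin 4) : ![a, b, c, d] i ∉ S := by
  fin_cases i <;> simp [ha, hb, hc, hd]

/-- the weighting of the image of the family `E` under the permutation `σ` -/
def vec {P : Type*} [Fintype P] (E : P → Finset V) (σ : Equiv.Perm V) : Finset V → ℤ :=
  ∑ p, e ((E p).map σ.toEmbedding)

/-- integer combinations of the images of `E` -/
def L {P : Type*} [Fintype P] (E : P → Finset V) : AddSubgroup (Finset V → ℤ) :=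
  AddSubgroup.closure (Set.range (vec E))

/-- nonnegative integer combinations of the images of `E` -/
def N {P : Type*} [Fintype P] (E : P → Finset V) : AddSubmonoid (Finset V → ℤ) :=
  AddSubmonoid.closure (Set.range (vec E))

lemma swap_map_of_notMem (u v : V) (s : Finset V) (hu : u ∉ s) (hv : v ∉ s) :
    s.map (Equiv.swap u v).toEmbedding = s := by
  ext x
  rw [Finset.mem_map_equiv, Equiv.symm_swap]
  by_cases hxu : x = u
  · subst hxu; simp [hu, hv]
  · by_cases hxv : x = v
    · subst hxv; simp [hu, hv]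
    · rw [Equiv.swap_apply_of_ne_of_ne hxu hxv]

lemma map_mul (σ τ : Equiv.Perm V) (s : Finset V) :
    s.map (σ * τ).toEmbedding = (s.map τ.toEmbedding).map σ.toEmbedding := by
  rw [Finset.map_map]
  rfl

theorem octs_le {P : Type*} [Fintype P] [DecidableEq P] (E : P → Finset V) (k : ℕ) (p0 : P)
    (hcard : (E p0).card = k)
    (u1 u2 v1 v2 : V) (hu1 : u1 ∈ E p0) (hu2 : u2 ∈ E p0) (hu : u1 ≠ u2) (hv1 : v1 ∉ E p0)
    (hv2 : v2 ∉ E p0) (hv : v1 ≠ v2)
    (hE : ∀ p, p ≠ p0 → (u1 ∉ E p ∧ v1 ∉ E p) ∨ (u2 ∉ E p ∧ v2 ∉ E p)) :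
    O (V := V) k ≤ L E := by
  rw [O, AddSubgroup.closure_le]
  rintro x ⟨S, a, b, c, d, hS, haS, hbS, hcS, hdS, hab, hac, had, hbc, hbd, hcd, rfl⟩
  set R := (E p0).erase u1 |>.erase u2 with hR
  have hu1R : u1 ∉ R := by simp [hR]
  have hu2R : u2 ∉ R := by simp [hR]
  have hv1R : v1 ∉ R := fun h => hv1 (Finset.mem_of_mem_erase (Finset.mem_of_mem_erase h))
  have hv2R : v2 ∉ R := fun h => hv2 (Finset.mem_of_mem_erase (Finset.mem_of_mem_erase h))
  have huv1 : u1 ≠ v1 := fun h => hv1 (h ▸ hu1)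
  have huv2 : u1 ≠ v2 := fun h => hv2 (h ▸ hu1)
  have huv3 : u2 ≠ v1 := fun h => hv1 (h ▸ hu2)
  have huv4 : u2 ≠ v2 := fun h => hv2 (h ▸ hu2)
  have hER : E p0 = insert u1 (insert u2 R) := by
    rw [hR, Finset.insert_erase (Finset.mem_erase.2 ⟨hu.symm, hu2⟩), Finset.insert_erase hu1]
  have hRcard : R.card = S.card := by
    have h1 : (E p0).card = R.card + 2 := by
      rw [hER, Finset.card_insert_of_notMem (by simp [hu, hu1R]),
        Finset.card_insert_of_notMem hu2R]
    omega
  let eRS : R ≃ S := Finset.equivOfCardEq hRcard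
  let f : Fin 4 ⊕ R → V := Sum.elim ![u1, v1, u2, v2] (fun x => (x : V))
  let g : Fin 4 ⊕ R → V := Sum.elim ![a, b, c, d] (fun x => (eRS x : V))
  have hf : Function.Injective f := by
    refine Function.Injective.sumElim (inj4 huv1 hu huv2 huv3.symm hv huv4)
      Subtype.val_injective ?_
    intro i x h
    have hx := x.2
    rw [← h] at hx
    exact notMem4 hu1R hv1R hu2R hv2R i hx
  have hg : Function.Injective g := by
    refine Function.Injective.sumElim (inj4 hab hac had hbc hbd hcd)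
      (Subtype.val_injective.comp eRS.injective) ?_
    intro i x h
    have hx := (eRS x).2
    rw [← h] at hx
    exact notMem4 haS hbS hcS hdS i hx
  obtain ⟨σ, hσ⟩ := exists_perm f g hf hg
  have h1 : σ u1 = a := hσ (Sum.inl 0)
  have h2 : σ v1 = b := hσ (Sum.inl 1)
  have h3 : σ u2 = c := hσ (Sum.inl 2)
  have h4 : σ v2 = d := hσ (Sum.inl 3)
  have hRS : R.map σ.toEmbedding = S := by
    ext y
    rw [Finset.mem_map]
    constructor
    · rintro ⟨x, hx, rfl⟩
      have h5 := hσ (Sum.inr ⟨x, hx⟩)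
      simp only [f, g, Sum.elim_inr] at h5
      rw [Equiv.coe_toEmbedding, h5]
      exact (eRS _).2
    · intro hy
      refine ⟨(eRS.symm ⟨y, hy⟩ : V), (eRS.symm ⟨y, hy⟩).2, ?_⟩
      have h5 := hσ (Sum.inr (eRS.symm ⟨y, hy⟩))
      simp only [f, g, Sum.elim_inr, Equiv.apply_symm_apply] at h5
      exact h5
  set τ1 := Equiv.swap u1 v1 with hτ1
  set τ2 := Equiv.swap u2 v2 with hτ2
  have hkey : e (insert a (insert c S)) - e (insert b (insert c S)) - e (insert a (insert d S))
      + e (insert b (insert d S)) =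
      vec E σ - vec E (σ * τ1) - vec E (σ * τ2) + vec E (σ * (τ1 * τ2)) := by
    have hp : ∀ p, p ≠ p0 → e ((E p).map σ.toEmbedding) - e ((E p).map (σ * τ1).toEmbedding)
        - e ((E p).map (σ * τ2).toEmbedding) + e ((E p).map (σ * (τ1 * τ2)).toEmbedding)
        = (0 : Finset V → ℤ) := by
      intro p hpp
      rcases hE p hpp with h | h
      · have h5 : (E p).map τ1.toEmbedding = E p := swap_map_of_notMem u1 v1 _ h.1 h.2
        have h6 : τ1 * τ2 = τ2 * τ1 := by
          refine (Equiv.Perm.disjoint_swap_swap ?_).commute.eq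
          simp [huv1, hu, huv2, huv3.symm, hv, huv4]
        rw [h6, map_mul σ τ1, map_mul σ (τ2 * τ1), map_mul τ2 τ1, h5, ← map_mul σ τ2]
        abel
      · have h5 : (E p).map τ2.toEmbedding = E p := swap_map_of_notMem u2 v2 _ h.1 h.2
        rw [map_mul σ τ2, map_mul σ (τ1 * τ2), map_mul τ1 τ2, h5, ← map_mul σ τ1]
        abel
    have hp0 : e ((E p0).map σ.toEmbedding) - e ((E p0).map (σ * τ1).toEmbedding)
        - e ((E p0).map (σ * τ2).toEmbedding) + e ((E p0).map (σ * (τ1 * τ2)).toEmbedding)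
        = e (insert a (insert c S)) - e (insert b (insert c S)) - e (insert a (insert d S))
      + e (insert b (insert d S)) := by
      have hτ1R : R.map τ1.toEmbedding = R := swap_map_of_notMem u1 v1 _ hu1R hv1R
      have hτ2R : R.map τ2.toEmbedding = R := swap_map_of_notMem u2 v2 _ hu2R hv2R
      have q1 : (E p0).map τ1.toEmbedding = insert v1 (insert u2 R) := by
        rw [hER, Finset.map_insert, Finset.map_insert, hτ1R]
        simp only [Equiv.coe_toEmbedding, hτ1, Equiv.swap_apply_left]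
        rw [Equiv.swap_apply_of_ne_of_ne hu.symm huv3]
      have q2 : (E p0).map τ2.toEmbedding = insert u1 (insert v2 R) := by
        rw [hER, Finset.map_insert, Finset.map_insert, hτ2R]
        simp only [Equiv.coe_toEmbedding, hτ2, Equiv.swap_apply_left]
        rw [Equiv.swap_apply_of_ne_of_ne hu huv2]
      have q3 : (E p0).map (τ1 * τ2).toEmbedding = insert v1 (insert v2 R) := by
        rw [map_mul, q2, Finset.map_insert, Finset.map_insert, hτ1R]
        simp only [Equiv.coe_toEmbedding, hτ1, Equiv.swap_apply_left]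
        rw [Equiv.swap_apply_of_ne_of_ne huv2.symm hv.symm]
      rw [map_mul σ τ1, map_mul σ τ2, map_mul σ (τ1 * τ2), q1, q2, q3, hER]
      simp only [Finset.map_insert, hRS, Equiv.coe_toEmbedding, h1, h2, h3, h4]
    rw [vec, vec, vec, vec, ← Finset.sum_sub_distrib, ← Finset.sum_sub_distrib,
      ← Finset.sum_add_distrib, Finset.sum_eq_single p0 (fun p _ h => hp p h)
      (fun h => absurd (Finset.mem_univ _) h)]
    exact hp0.symm
  rw [hkey]
  have hm : ∀ τ, vec E τ ∈ L E := fun τ => AddSubgroup.subset_closure ⟨τ, rfl⟩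
  exact (L E).add_mem ((L E).sub_mem ((L E).sub_mem (hm _) (hm _)) (hm _)) (hm _)

lemma deg_e (s : Finset V) (v : V) : ∑ t with v ∈ t, e s t = if v ∈ s then 1 else 0 := by
  simp only [e]
  rw [Finset.sum_filter]
  simp only [Pi.single_apply]
  rw [Finset.sum_eq_single s]
  · simp
  · intro t _ hts
    simp [hts]
  · simp

lemma deg_vec {P : Type*} [Fintype P] (E : P → Finset V) (r : ℕ)
    (hr : ∀ v, #{p | v ∈ E p} = r) (σ : Equiv.Perm V) (v : V) :
    ∑ t with v ∈ t, vec E σ t = r := by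
  simp only [vec, Finset.sum_apply]
  rw [Finset.sum_comm]
  simp only [deg_e]
  rw [← hr (σ.symm v), Finset.card_filter]
  push_cast
  refine Finset.sum_congr rfl fun p _ => ?_
  simp [Finset.mem_map_equiv]

lemma vec_supp {P : Type*} [Fintype P] (E : P → Finset V) (k : ℕ) (hk : ∀ p, (E p).card = k)
    (σ : Equiv.Perm V) (s : Finset V) (hs : s.card ≠ k) : vec E σ s = 0 := by
  simp only [vec, Finset.sum_apply, e]
  refine Finset.sum_eq_zero fun p _ => ?_
  rw [Pi.single_apply, if_neg]
  intro h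
  apply hs
  rw [h, Finset.card_map, hk]

theorem mem_L {P : Type*} [Fintype P] [DecidableEq P] (E : P → Finset V) (k r : ℕ) (hk1 : 1 ≤ k)
    (hV : k + 2 ≤ Fintype.card V)
    (hk : ∀ p, (E p).card = k) (hr : ∀ v, #{p | v ∈ E p} = r) (hO : O (V := V) k ≤ L E)
    (w : Finset V → ℤ) (hw : ∀ s, s.card ≠ k → w s = 0) (c : ℤ)
    (hdeg : ∀ v : V, ∑ s with v ∈ s, w s = r * c) : w ∈ L E := by
  have h1 : w - c • vec E 1 ∈ L E := by
    apply hO
    apply null_mem k hk1 hV
    · intro s hs
      simp [hw s hs, vec_supp E k hk 1 s hs]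
    · intro v
      simp only [Pi.sub_apply, Pi.smul_apply, smul_eq_mul]
      rw [Finset.sum_sub_distrib, hdeg, ← Finset.mul_sum, deg_vec E r hr]
      ring
  have h2 : c • vec E 1 ∈ L E := (L E).zsmul_mem (AddSubgroup.subset_closure ⟨1, rfl⟩) c
  have h3 := (L E).add_mem h1 h2
  rwa [sub_add_cancel] at h3

end Tcs70
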