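import Pool.Agent.H.Tcs70.Cfg

set_option autoImplicit false
set_option linter.unusedSectionVars false

namespace Tcs70

open Finset

variable {V : Type*} [Fintype V] [DecidableEq V]

/-- the complete `k`-graph as a weighting -/
def J (k : ℕ) : Finset V → ℤ := fun s => if s.card = k then 1 else 0

lemma vec_mul_apply {P : Type*} [Fintype P] (E : P → Finset V) (σ τ : Equiv.Perm V) (s : Finset V) :
    vec E (τ * σ) (s.map τ.toEmbedding) = vec E σ s := by
  simp only [vec, Finset.sum_apply, e, Pi.single_apply]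
  refine Finset.sum_congr rfl fun p _ => ?_
  congr 1
  rw [map_mul]
  simp only [eq_iff_iff]
  exact ⟨fun h => Finset.map_injective _ h, fun h => by rw [h]⟩

lemma total_map {P : Type*} [Fintype P] (E : P → Finset V) (τ : Equiv.Perm V) (s : Finset V) :
    (∑ σ, vec E σ) (s.map τ.toEmbedding) = (∑ σ, vec E σ) s := by
  simp only [Finset.sum_apply]
  rw [← Equiv.sum_comp (Equiv.mulLeft τ)]
  simp only [Equiv.coe_mulLeft, vec_mul_apply]

lemma total_eq {P : Type*} [Fintype P] [Nonempty P] (E : P → Finset V) (k : ℕ)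
    (hk : ∀ p, (E p).card = k) : ∃ μ : ℕ, 0 < μ ∧ (∑ σ, vec E σ) = (μ : ℤ) • J (V := V) k := by
  obtain ⟨p0⟩ := ‹Nonempty P›
  have hnn : ∀ σ s, 0 ≤ vec E σ s := by
    intro σ s
    simp only [vec, Finset.sum_apply, e, Pi.single_apply]
    exact Finset.sum_nonneg fun p _ => by split_ifs <;> norm_num
  have hpos : 1 ≤ (∑ σ, vec E σ) (E p0) := by
    simp only [Finset.sum_apply]
    have h1 : vec E 1 (E p0) ≤ ∑ σ, vec E σ (E p0) :=
      Finset.single_le_sum (f := fun σ => vec E σ (E p0)) (fun σ _ => hnn σ _) (Finset.mem_univ 1)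
    have h2 : 1 ≤ vec E 1 (E p0) := by
      simp only [vec, Finset.sum_apply, e, Pi.single_apply]
      have h3 : (if E p0 = (E p0).map (1 : Equiv.Perm V).toEmbedding then (1 : ℤ) else 0) ≤
          ∑ p, if E p0 = (E p).map (1 : Equiv.Perm V).toEmbedding then (1 : ℤ) else 0 :=
        Finset.single_le_sum (f := fun p => if E p0 = (E p).map (1 : Equiv.Perm V).toEmbedding
          then (1 : ℤ) else 0) (fun p _ => by split_ifs <;> norm_num) (Finset.mem_univ p0)
      have h4 : E p0 = (E p0).map (1 : Equiv.Perm V).toEmbedding := by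
        ext x
        rw [Finset.mem_map_equiv]
        rfl
      rw [if_pos h4] at h3
      exact h3
    omega
  refine ⟨((∑ σ, vec E σ) (E p0)).toNat, by omega, ?_⟩
  funext s
  rw [Int.toNat_of_nonneg (by omega), Pi.smul_apply, J, smul_eq_mul]
  split_ifs with hs
  · rw [mul_one]
    let ε : {x // x ∈ E p0} ≃ {x // x ∈ s} := Finset.equivOfCardEq (by rw [hk, hs])
    obtain ⟨τ, hτ⟩ := exists_perm (fun x : {x // x ∈ E p0} => (x : V)) (fun x => (ε x : V))
      Subtype.val_injective (Subtype.val_injective.comp ε.injective)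
    have h1 : (E p0).map τ.toEmbedding = s := by
      ext y
      rw [Finset.mem_map]
      constructor
      · rintro ⟨x, hx, rfl⟩
        rw [Equiv.coe_toEmbedding, hτ ⟨x, hx⟩]
        exact (ε _).2
      · intro hy
        refine ⟨(ε.symm ⟨y, hy⟩ : V), (ε.symm ⟨y, hy⟩).2, ?_⟩
        rw [Equiv.coe_toEmbedding, hτ (ε.symm ⟨y, hy⟩), Equiv.apply_symm_apply]
    rw [← h1, total_map]
  · rw [mul_zero, Finset.sum_apply]
    exact Finset.sum_eq_zero fun σ _ => vec_supp E k hk σ s hs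

lemma deg_J (k : ℕ) (v : V) (hk : 1 ≤ k) :
    ∑ s with v ∈ s, J (V := V) k s = (Fintype.card V - 1).choose (k - 1) := by
  simp only [J]
  rw [← Finset.sum_filter, Finset.sum_const, nsmul_eq_mul, mul_one]
  congr 1
  have h1 : ({s ∈ ({s | v ∈ s} : Finset (Finset V)) | s.card = k}) =
      (Finset.powersetCard (k - 1) (univ.erase v)).image (insert v) := by
    ext s
    simp only [Finset.mem_filter, Finset.mem_univ, true_and, Finset.mem_image,
      Finset.mem_powersetCard]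
    constructor
    · rintro ⟨hv, hs⟩
      refine ⟨s.erase v, ⟨?_, ?_⟩, Finset.insert_erase hv⟩
      · exact Finset.erase_subset_erase v (Finset.subset_univ s)
      · rw [Finset.card_erase_of_mem hv, hs]
    · rintro ⟨T, ⟨hT, hTc⟩, rfl⟩
      have hvT : v ∉ T := fun h => by simpa using hT h
      refine ⟨Finset.mem_insert_self v T, ?_⟩
      rw [Finset.card_insert_of_notMem hvT, hTc]
      omega
  rw [h1, Finset.card_image_of_injOn, Finset.card_powersetCard, Finset.card_erase_of_mem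
    (Finset.mem_univ v), Finset.card_univ]
  intro A hA B hB h
  have hvA : v ∉ A := fun h => by simpa using (Finset.mem_powersetCard.1 hA).1 h
  have hvB : v ∉ B := fun h => by simpa using (Finset.mem_powersetCard.1 hB).1 h
  have h2 : (insert v A).erase v = (insert v B).erase v := congrArg (fun s => s.erase v) h
  rwa [Finset.erase_insert hvA, Finset.erase_insert hvB] at h2

lemma L_bound {P : Type*} [Fintype P] (E : P → Finset V) (x : Finset V → ℤ) (hx : x ∈ L E) :
    ∃ t0 : ℕ, ∀ t : ℕ, t0 ≤ t → x + t • (∑ σ, vec E σ) ∈ N E ∧ -x + t • (∑ σ, vec E σ) ∈ N E := by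
  have hT : (∑ σ, vec E σ) ∈ N E :=
    (N E).sum_mem fun σ _ => AddSubmonoid.subset_closure ⟨σ, rfl⟩
  refine AddSubgroup.closure_induction (p := fun x _ => ∃ t0 : ℕ, ∀ t : ℕ, t0 ≤ t →
    x + t • (∑ σ, vec E σ) ∈ N E ∧ -x + t • (∑ σ, vec E σ) ∈ N E) ?_ ?_ ?_ ?_ hx
  · rintro x ⟨τ, rfl⟩
    refine ⟨1, fun t ht => ⟨(N E).add_mem (AddSubmonoid.subset_closure ⟨τ, rfl⟩)
      ((N E).nsmul_mem hT t), ?_⟩⟩
    obtain ⟨t', rfl⟩ := Nat.exists_eq_add_of_le ht
    rw [add_smul, one_smul, ← add_assoc]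
    refine (N E).add_mem ?_ ((N E).nsmul_mem hT t')
    rw [← Finset.add_sum_erase _ _ (Finset.mem_univ τ), ← add_assoc, neg_add_cancel, zero_add]
    exact (N E).sum_mem fun σ _ => AddSubmonoid.subset_closure ⟨σ, rfl⟩
  · refine ⟨0, fun t _ => ?_⟩
    simp only [zero_add, neg_zero]
    exact ⟨(N E).nsmul_mem hT t, (N E).nsmul_mem hT t⟩
  · rintro x y - - ⟨t1, h1⟩ ⟨t2, h2⟩
    refine ⟨t1 + t2, fun t ht => ?_⟩
    obtain ⟨h3, h4⟩ := h1 t1 le_rfl
    obtain ⟨h5, h6⟩ := h2 (t - t1) (by omega)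
    have h7 : t = t1 + (t - t1) := by omega
    constructor
    · have h8 : x + y + t • (∑ σ, vec E σ) =
          (x + t1 • ∑ σ, vec E σ) + (y + (t - t1) • ∑ σ, vec E σ) := by
        conv_lhs => rw [h7, add_smul]
        abel
      rw [h8]
      exact (N E).add_mem h3 h5
    · have h8 : -(x + y) + t • (∑ σ, vec E σ) =
          (-x + t1 • ∑ σ, vec E σ) + (-y + (t - t1) • ∑ σ, vec E σ) := by
        conv_lhs => rw [h7, add_smul]
        abel
      rw [h8]
      exact (N E).add_mem h4 h6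
  · rintro x - ⟨t1, h1⟩
    refine ⟨t1, fun t ht => ⟨(h1 t ht).2, ?_⟩⟩
    rw [neg_neg]
    exact (h1 t ht).1

/-- adding many copies of the complete `k`-graph makes every admissible weighting a nonnegative
combination of images of `E` -/
theorem big {P : Type*} [Fintype P] [DecidableEq P] [Nonempty P] (E : P → Finset V) (k r : ℕ)
    (hk1 : 1 ≤ k) (hV : k + 2 ≤ Fintype.card V)
    (hk : ∀ p, (E p).card = k) (hr : ∀ v, #{p | v ∈ E p} = r) (hO : O (V := V) k ≤ L E)
    (w : Finset V → ℤ) (hw : ∀ s, s.card ≠ k → w s = 0) (c : ℤ)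
    (hdeg : ∀ v : V, ∑ s with v ∈ s, w s = r * c) :
    ∃ Λ : ℕ, ∀ l : ℕ, Λ ≤ l → r ∣ l * (Fintype.card V - 1).choose (k - 1) →
      w + (l : ℤ) • J k ∈ N E := by
  classical
  obtain ⟨μ, hμ, hT⟩ := total_eq E k hk
  have hTL : (∑ σ, vec E σ) ∈ L E :=
    (L E).sum_mem fun σ _ => AddSubgroup.subset_closure ⟨σ, rfl⟩
  have h1 : ∀ ρ : ℕ, ∃ t0 : ℕ, w + (ρ : ℤ) • J k ∈ L E →
      ∀ t : ℕ, t0 ≤ t → w + (ρ : ℤ) • J k + t • (∑ σ, vec E σ) ∈ N E := by
    intro ρ
    by_cases h : w + (ρ : ℤ) • J k ∈ L E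
    · obtain ⟨t0, h0⟩ := L_bound E _ h
      exact ⟨t0, fun _ t ht => (h0 t ht).1⟩
    · exact ⟨0, fun h' => absurd h' h⟩
  choose t0 ht0 using h1
  refine ⟨μ * ∑ ρ ∈ Finset.range μ, t0 ρ, fun l hl hdvd => ?_⟩
  have hl1 : l = l % μ + μ * (l / μ) := (Nat.mod_add_div l μ).symm
  have hdecomp : w + (l : ℤ) • J k = w + ((l % μ : ℕ) : ℤ) • J k + (l / μ) • (∑ σ, vec E σ) := by
    rw [hT, add_assoc, ← natCast_zsmul, smul_smul, ← add_smul]
    congr 2
    conv_lhs => rw [hl1]
    push_cast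
    ring
  have hmem : w + (l : ℤ) • J k ∈ L E := by
    obtain ⟨q, hq⟩ := hdvd
    refine mem_L E k r hk1 hV hk hr hO _ ?_ (c + q) ?_
    · intro s hs
      simp [hw s hs, J, hs]
    · intro v
      simp only [Pi.add_apply, Pi.smul_apply, smul_eq_mul]
      rw [Finset.sum_add_distrib, hdeg, ← Finset.mul_sum, deg_J k v hk1, mul_add]
      congr 1
      exact_mod_cast hq
  have hρ : w + ((l % μ : ℕ) : ℤ) • J k ∈ L E := by
    have h2 : w + ((l % μ : ℕ) : ℤ) • J k =
        (w + (l : ℤ) • J k) - (l / μ) • (∑ σ, vec E σ) := by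
      rw [hdecomp]; abel
    rw [h2]
    exact (L E).sub_mem hmem ((L E).nsmul_mem hTL _)
  rw [hdecomp]
  refine ht0 _ hρ _ ?_
  have h3 : t0 (l % μ) ≤ ∑ ρ ∈ Finset.range μ, t0 ρ :=
    Finset.single_le_sum (f := t0) (fun _ _ => Nat.zero_le _)
      (Finset.mem_range.2 (Nat.mod_lt _ hμ))
  refine h3.trans ?_
  rw [Nat.le_div_iff_mul_le hμ, mul_comm]
  exact hl

/-- members of the cone are sums over finite lists -/
lemma N_list {P : Type*} [Fintype P] (E : P → Finset V) (x : Finset V → ℤ) (hx : x ∈ N E) :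
    ∃ (r : ℕ) (σ : Fin r → Equiv.Perm V), x = ∑ i, vec E (σ i) := by
  refine AddSubmonoid.closure_induction (motive := fun x _ => ∃ (r : ℕ) (σ : Fin r → Equiv.Perm V),
    x = ∑ i, vec E (σ i)) ?_ ?_ ?_ hx
  · rintro x ⟨σ, rfl⟩
    exact ⟨1, fun _ => σ, by simp⟩
  · exact ⟨0, fun i => i.elim0, by simp⟩
  · rintro x y - - ⟨r, σ, rfl⟩ ⟨r', σ', rfl⟩
    refine ⟨r + r', Fin.append σ σ', ?_⟩
    rw [Fin.sum_univ_add]
    simp

end Tcs70
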