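import Pool.Agent.H.Tcs70.Cone

set_option autoImplicit false
set_option linter.unusedSectionVars false

namespace Tcs70

open Finset

variable {V : Type*} [Fintype V] [DecidableEq V] {m : ℕ} {ℓ : Fin m → ℕ}

/-- the window of `k` consecutive vertices starting at `p` -/
def win (k : ℕ) (φ : (Σ i : Fin m, ZMod (ℓ i)) → V) (p : Σ i : Fin m, ZMod (ℓ i)) : Finset V :=
  (Finset.range k).image (fun j : ℕ => φ ⟨p.1, p.2 + (j : ZMod (ℓ p.1))⟩)

lemma cast_inj {l a b : ℕ} (ha : a < l) (hb : b < l) (h : (a : ZMod l) = b) : a = b := by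
  have h1 := (ZMod.natCast_eq_natCast_iff' a b l).1 h
  rwa [Nat.mod_eq_of_lt ha, Nat.mod_eq_of_lt hb] at h1

lemma sig_inj {i : Fin m} {x y : ZMod (ℓ i)}
    (h : (⟨i, x⟩ : Σ i : Fin m, ZMod (ℓ i)) = ⟨i, y⟩) : x = y := by
  simpa using h

lemma win_card (k : ℕ) (hk : ∀ i, k ≤ ℓ i) (φ : (Σ i : Fin m, ZMod (ℓ i)) → V)
    (hφ : Function.Injective φ) (p : Σ i : Fin m, ZMod (ℓ i)) : (win k φ p).card = k := by
  rw [win, Finset.card_image_of_injOn, Finset.card_range]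
  intro a ha b hb h
  have ha' : a < k := by simpa using ha
  have hb' : b < k := by simpa using hb
  have h1 := sig_inj (hφ h)
  exact cast_inj (ha'.trans_le (hk p.1)) (hb'.trans_le (hk p.1)) (add_left_cancel h1)

lemma mem_win (k : ℕ) (φ : (Σ i : Fin m, ZMod (ℓ i)) → V) (hφ : Function.Injective φ)
    (p q : Σ i : Fin m, ZMod (ℓ i)) :
    φ q ∈ win k φ p ↔ ∃ j < k, q = ⟨p.1, p.2 + (j : ZMod (ℓ p.1))⟩ := by
  simp only [win, Finset.mem_image, Finset.mem_range]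
  constructor
  · rintro ⟨j, hj, h⟩
    exact ⟨j, hj, (hφ h).symm⟩
  · rintro ⟨j, hj, h⟩
    exact ⟨j, hj, by rw [h]⟩

/-- the points that can lie in a common window with `q` -/
def nbh (k : ℕ) (q : Σ i : Fin m, ZMod (ℓ i)) : Finset (Σ i : Fin m, ZMod (ℓ i)) := by
  classical
  exact (Finset.range (2 * k - 1)).image
    (fun j : ℕ => (⟨q.1, q.2 + (j : ZMod (ℓ q.1)) - ((k - 1 : ℕ) : ZMod (ℓ q.1))⟩ :
      Σ i : Fin m, ZMod (ℓ i)))

lemma nbh_card (k : ℕ) (q : Σ i : Fin m, ZMod (ℓ i)) : (nbh k q).card ≤ 2 * k - 1 := by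
  classical
  rw [nbh]
  exact Finset.card_image_le.trans (by simp)

lemma nbh_of_win (k : ℕ) (φ : (Σ i : Fin m, ZMod (ℓ i)) → V) (hφ : Function.Injective φ)
    (p q q' : Σ i : Fin m, ZMod (ℓ i)) (h : φ q ∈ win k φ p) (h' : φ q' ∈ win k φ p) :
    q' ∈ nbh k q := by
  classical
  rw [mem_win k φ hφ] at h h'
  obtain ⟨a, ha, rfl⟩ := h
  obtain ⟨b, hb, rfl⟩ := h'
  simp only [nbh, Finset.mem_image, Finset.mem_range]
  refine ⟨b + (k - 1) - a, by omega, ?_⟩
  rw [Nat.cast_sub (by omega), Nat.cast_add]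
  congr 1
  ring

lemma self_mem_nbh (k : ℕ) (hk : 1 ≤ k) (q : Σ i : Fin m, ZMod (ℓ i)) : q ∈ nbh k q := by
  classical
  simp only [nbh, Finset.mem_image, Finset.mem_range]
  refine ⟨k - 1, by omega, ?_⟩
  rw [add_sub_cancel_right]

lemma win_deg (k : ℕ) [∀ i, NeZero (ℓ i)] (hk : ∀ i, k ≤ ℓ i)
    (φ : (Σ i : Fin m, ZMod (ℓ i)) → V)
    (hφ : Function.Bijective φ) (v : V) : #{p | v ∈ win k φ p} = k := by
  classical
  obtain ⟨q, rfl⟩ := hφ.2 v
  have h1 : ({p | φ q ∈ win k φ p} : Finset (Σ i : Fin m, ZMod (ℓ i))) =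
      (Finset.range k).image (fun j : ℕ => (⟨q.1, q.2 - (j : ZMod (ℓ q.1))⟩ :
        Σ i : Fin m, ZMod (ℓ i))) := by
    ext p
    rw [Finset.mem_filter, mem_win k φ hφ.1]
    simp only [Finset.mem_univ, true_and, Finset.mem_image, Finset.mem_range]
    constructor
    · rintro ⟨j, hj, rfl⟩
      refine ⟨j, hj, ?_⟩
      rw [add_sub_cancel_right]
    · rintro ⟨j, hj, rfl⟩
      refine ⟨j, hj, ?_⟩
      rw [sub_add_cancel]
  rw [h1, Finset.card_image_of_injOn, Finset.card_range]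
  intro a ha b hb h
  have ha' : a < k := by simpa using ha
  have hb' : b < k := by simpa using hb
  have h1 := sig_inj h
  have h2 : (a : ZMod (ℓ q.1)) = b := by
    have := congrArg (fun x => q.2 - x) h1
    simpa using this
  exact cast_inj (ha'.trans_le (hk q.1)) (hb'.trans_le (hk q.1)) h2

/-- the configuration used for the octahedra -/
theorem octs_le_cyc (k : ℕ) (hk2 : 2 ≤ k) [∀ i, NeZero (ℓ i)] (hℓ : ∀ i, 2 * k - 1 ≤ ℓ i)
    (φ : (Σ i : Fin m, ZMod (ℓ i)) → V) (hφ : Function.Bijective φ)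
    (hV : 6 * k ≤ Fintype.card V) : O (V := V) k ≤ L (win k φ) := by
  classical
  have hcard : Fintype.card (Σ i : Fin m, ZMod (ℓ i)) = Fintype.card V :=
    Fintype.card_of_bijective hφ
  have hne : Nonempty (Σ i : Fin m, ZMod (ℓ i)) := by
    rw [← Fintype.card_pos_iff]; omega
  obtain ⟨p0⟩ := hne
  set q2 : Σ i : Fin m, ZMod (ℓ i) := ⟨p0.1, p0.2 + ((k - 1 : ℕ) : ZMod (ℓ p0.1))⟩ with hq2
  obtain ⟨x1, hx1⟩ : ∃ x, x ∉ nbh k p0 ∪ nbh k q2 := by
    by_contra hcon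
    push Not at hcon
    have h1 : (univ : Finset (Σ i : Fin m, ZMod (ℓ i))) ⊆ nbh k p0 ∪ nbh k q2 :=
      fun x _ => hcon x
    have h2 := Finset.card_le_card h1
    have h3 := Finset.card_union_le (nbh k p0) (nbh k q2)
    have h4 := nbh_card k p0
    have h5 := nbh_card k q2
    rw [Finset.card_univ] at h2
    omega
  obtain ⟨x2, hx2⟩ : ∃ x, x ∉ (nbh k p0 ∪ nbh k q2) ∪ nbh k x1 := by
    by_contra hcon
    push Not at hcon
    have h1 : (univ : Finset (Σ i : Fin m, ZMod (ℓ i))) ⊆ (nbh k p0 ∪ nbh k q2) ∪ nbh k x1 :=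
      fun x _ => hcon x
    have h2 := Finset.card_le_card h1
    have h3 := Finset.card_union_le (nbh k p0) (nbh k q2)
    have h3' := Finset.card_union_le (nbh k p0 ∪ nbh k q2) (nbh k x1)
    have h4 := nbh_card k p0
    have h5 := nbh_card k q2
    have h6 := nbh_card k x1
    rw [Finset.card_univ] at h2
    omega
  simp only [Finset.mem_union, not_or] at hx1 hx2
  have hp0mem : φ p0 ∈ win k φ p0 := by
    rw [mem_win k φ hφ.1]
    exact ⟨0, by omega, by simp⟩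
  have hq2mem : φ q2 ∈ win k φ p0 := by
    rw [mem_win k φ hφ.1]
    exact ⟨k - 1, by omega, rfl⟩
  have huniq : ∀ p, φ p0 ∈ win k φ p → φ q2 ∈ win k φ p → p = p0 := by
    intro p h1 h2
    rw [mem_win k φ hφ.1] at h1 h2
    obtain ⟨a, ha, h1⟩ := h1
    obtain ⟨b, hb, h2⟩ := h2
    obtain ⟨i, y⟩ := p
    simp only at h1 h2
    rw [h1] at hq2
    rw [h2] at hq2
    simp only at hq2
    have h3 := sig_inj hq2
    have h4 : (b : ZMod (ℓ i)) = ((a + (k - 1) : ℕ) : ZMod (ℓ i)) := by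
      push_cast
      have h5 : y + (b : ZMod (ℓ i)) = y + ((a : ZMod (ℓ i)) + ((k - 1 : ℕ) : ZMod (ℓ i))) := by
        rw [h3]; ring
      exact add_left_cancel h5
    have h6 := hℓ i
    have h7 := cast_inj (by omega) (by omega) h4
    have h8 : a = 0 := by omega
    rw [h1, h8]
    simp
  refine octs_le (win k φ) k p0 (win_card k (fun i => by have := hℓ i; omega) φ hφ.1 p0)
    (φ p0) (φ q2) (φ x1) (φ x2) hp0mem hq2mem ?_ ?_ ?_ ?_ ?_
  · intro h
    have h1 := sig_inj (m := m) (ℓ := ℓ) (i := p0.1) (x := p0.2) (hφ.1 h)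
    have h2 : ((0 : ℕ) : ZMod (ℓ p0.1)) = ((k - 1 : ℕ) : ZMod (ℓ p0.1)) := by
      have h3 : p0.2 + ((0 : ℕ) : ZMod (ℓ p0.1)) = p0.2 + ((k - 1 : ℕ) : ZMod (ℓ p0.1)) := by
        rw [← h1]; simp
      exact add_left_cancel h3
    have h6 := hℓ p0.1
    have h7 := cast_inj (by omega) (by omega) h2
    omega
  · intro h
    exact hx1.1 (nbh_of_win k φ hφ.1 p0 p0 x1 hp0mem h)
  · intro h
    exact hx2.1.1 (nbh_of_win k φ hφ.1 p0 p0 x2 hp0mem h)
  · intro h
    apply hx2.2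
    rw [← hφ.1 h]
    exact self_mem_nbh k (by omega) x1
  · intro p hp
    by_cases h1 : φ x1 ∈ win k φ p
    · right
      exact ⟨fun h2 => hx1.2 (nbh_of_win k φ hφ.1 p q2 x1 h2 h1),
        fun h2 => hx2.2 (nbh_of_win k φ hφ.1 p x1 x2 h1 h2)⟩
    · by_cases h2 : φ x2 ∈ win k φ p
      · left
        exact ⟨fun h3 => hx2.1.1 (nbh_of_win k φ hφ.1 p p0 x2 h3 h2), h1⟩
      · by_cases h3 : φ p0 ∈ win k φ p
        · right
          exact ⟨fun h4 => hp (huniq p h3 h4), h2⟩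
        · left
          exact ⟨h3, h1⟩

end Tcs70
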