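import Mathlib

set_option autoImplicit false

namespace Tcs70

open Finset

variable {V : Type*} [Fintype V] [DecidableEq V]

/-- indicator of a set, as an integer weighting of all subsets -/
def e (s : Finset V) : Finset V → ℤ := Pi.single s 1

/-- the octahedra with two pairs of poles `a, b` and `c, d` and common part `S` with `|S| = k - 2` -/
def octs (k : ℕ) : Set (Finset V → ℤ) :=
  {x | ∃ (S : Finset V) (a b c d : V), S.card + 2 = k ∧ a ∉ S ∧ b ∉ S ∧ c ∉ S ∧ d ∉ S ∧
    a ≠ b ∧ a ≠ c ∧ a ≠ d ∧ b ≠ c ∧ b ≠ d ∧ c ≠ d ∧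
    x = e (insert a (insert c S)) - e (insert b (insert c S)) - e (insert a (insert d S))
      + e (insert b (insert d S))}

/-- subgroup spanned by the octahedra -/
def O (k : ℕ) : AddSubgroup (Finset V → ℤ) := AddSubgroup.closure (octs k)

lemma step (k : ℕ) (a b : V) (hab : a ≠ b) : ∀ (m : ℕ) (T T' : Finset V),
    T.card + 1 = k → T'.card + 1 = k → a ∉ T → b ∉ T → a ∉ T' → b ∉ T' →
    (T \ T').card = m →
    (e (insert a T) - e (insert b T)) - (e (insert a T') - e (insert b T')) ∈ O (V := V) k := by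
  intro m
  induction m with
  | zero =>
    intro T T' hT hT' _ _ _ _ h
    have h1 : T ⊆ T' := by
      rw [← Finset.sdiff_eq_empty_iff_subset]
      exact Finset.card_eq_zero.1 h
    have h2 : T = T' := Finset.eq_of_subset_of_card_le h1 (by omega)
    subst h2
    simp [(O k).zero_mem]
  | succ m ih =>
    intro T T' hT hT' haT hbT haT' hbT' h
    have hne : (T \ T').Nonempty := by
      rw [← Finset.card_pos]; omega
    obtain ⟨c, hc⟩ := hne
    have hne' : (T' \ T).Nonempty := by
      rw [← Finset.card_pos, Finset.card_sdiff_comm (by omega : T'.card = T.card)]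
      omega
    obtain ⟨d, hd⟩ := hne'
    rw [Finset.mem_sdiff] at hc hd
    set S := T.erase c with hS
    have hTS : T = insert c S := (Finset.insert_erase hc.1).symm
    set T1 := insert d S with hT1
    have hdS : d ∉ S := fun h' => hd.2 (Finset.mem_of_mem_erase h')
    have hcS : c ∉ S := Finset.notMem_erase c T
    have hcd : c ≠ d := fun h' => hd.2 (h' ▸ hc.1)
    have hScard : S.card + 1 = T.card := by
      rw [hS, Finset.card_erase_of_mem hc.1]
      have := Finset.card_pos.2 ⟨c, hc.1⟩
      omega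
    have haS : a ∉ S := fun h' => haT (Finset.mem_of_mem_erase h')
    have hbS : b ∉ S := fun h' => hbT (Finset.mem_of_mem_erase h')
    have had : a ≠ d := fun h' => haT' (h' ▸ hd.1)
    have hbd : b ≠ d := fun h' => hbT' (h' ▸ hd.1)
    have hac : a ≠ c := fun h' => haT (h' ▸ hc.1)
    have hbc : b ≠ c := fun h' => hbT (h' ▸ hc.1)
    have key : (T1 \ T').card = m := by
      have h1 : T1 \ T' = (T \ T').erase c := by
        ext x
        simp only [hT1, hS, Finset.mem_sdiff, Finset.mem_insert, Finset.mem_erase]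
        constructor
        · rintro ⟨h1 | h1, h2⟩
          · exact absurd (h1 ▸ hd.1) h2
          · exact ⟨h1.1, h1.2, h2⟩
        · rintro ⟨h1, h2, h3⟩
          exact ⟨Or.inr ⟨h1, h2⟩, h3⟩
      rw [h1, Finset.card_erase_of_mem (Finset.mem_sdiff.2 hc)]
      omega
    have h1 := ih T1 T' (by rw [hT1, Finset.card_insert_of_notMem hdS]; omega) hT'
      (by simp [hT1, had, haS]) (by simp [hT1, hbd, hbS]) haT' hbT' key
    have h2 : (e (insert a T) - e (insert b T)) - (e (insert a T1) - e (insert b T1))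
        ∈ O (V := V) k := by
      apply AddSubgroup.subset_closure
      refine ⟨S, a, b, c, d, by omega, haS, hbS, hcS, hdS, hab, hac, had, hbc, hbd, hcd, ?_⟩
      rw [hTS, hT1]
      abel
    have h3 := (O k).add_mem h2 h1
    have h4 : (e (insert a T) - e (insert b T)) - (e (insert a T1) - e (insert b T1)) +
        ((e (insert a T1) - e (insert b T1)) - (e (insert a T') - e (insert b T'))) =
        (e (insert a T) - e (insert b T)) - (e (insert a T') - e (insert b T')) := by abel
    rw [← h4]
    exact h3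

lemma exists_avoid (k : ℕ) (A : Finset V) (h : k ≤ Fintype.card V - A.card) :
    ∃ T : Finset V, T.card = k ∧ ∀ x ∈ A, x ∉ T := by
  have h1 : k ≤ (univ \ A).card := by
    rw [Finset.card_univ_sdiff]; exact h
  obtain ⟨T, hT, hc⟩ := Finset.exists_subset_card_eq h1
  exact ⟨T, hc, fun x hx hxT => (Finset.mem_sdiff.1 (hT hxT)).2 hx⟩

open Classical in
/-- the class of `e (insert a T) - e (insert b T)` modulo octahedra -/
noncomputable def D (k : ℕ) (a b : V) : (Finset V → ℤ) ⧸ (O (V := V) k) :=
  if h : ∃ T : Finset V, T.card + 1 = k ∧ a ∉ T ∧ b ∉ T then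
    QuotientAddGroup.mk (e (insert a h.choose) - e (insert b h.choose)) else 0

lemma D_eq (k : ℕ) (a b : V) (T : Finset V) (hT : T.card + 1 = k) (ha : a ∉ T) (hb : b ∉ T) :
    D k a b = QuotientAddGroup.mk (e (insert a T) - e (insert b T)) := by
  have h : ∃ T : Finset V, T.card + 1 = k ∧ a ∉ T ∧ b ∉ T := ⟨T, hT, ha, hb⟩
  rw [D, dif_pos h]
  by_cases hab : a = b
  · subst hab
    simp
  · rw [QuotientAddGroup.eq]
    have := step k a b hab _ T h.choose hT h.choose_spec.1 ha hb h.choose_spec.2.1
      h.choose_spec.2.2 rfl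
    rw [neg_add_eq_sub]
    exact this

lemma D_add (k : ℕ) (hk : 1 ≤ k) (hV : k + 2 ≤ Fintype.card V) (a b c : V) :
    D k a b + D k b c = D (V := V) k a c := by
  obtain ⟨T, hT, hav⟩ := exists_avoid (V := V) (k - 1) {a, b, c} (by
    have := Finset.card_le_three (a := a) (b := b) (c := c)
    omega)
  have ha : a ∉ T := hav a (by simp)
  have hb : b ∉ T := hav b (by simp)
  have hc : c ∉ T := hav c (by simp)
  rw [D_eq k a b T (by omega) ha hb, D_eq k b c T (by omega) hb hc, D_eq k a c T (by omega) ha hc,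
    ← QuotientAddGroup.mk_add]
  congr 1
  abel

lemma const (k : ℕ) (hk : 1 ≤ k) (hV : k + 2 ≤ Fintype.card V) (b0 : V) : ∀ (m : ℕ) (s s' : Finset V),
    s.card = k → s'.card = k → (s \ s').card = m →
    (QuotientAddGroup.mk (e s) : (Finset V → ℤ) ⧸ (O (V := V) k)) - ∑ a ∈ s, D k a b0 =
      QuotientAddGroup.mk (e s') - ∑ a ∈ s', D k a b0 := by
  intro m
  induction m with
  | zero =>
    intro s s' hs hs' h
    have h1 : s ⊆ s' := by
      rw [← Finset.sdiff_eq_empty_iff_subset]
      exact Finset.card_eq_zero.1 h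
    have h2 : s = s' := Finset.eq_of_subset_of_card_le h1 (by omega)
    rw [h2]
  | succ m ih =>
    intro s s' hs hs' h
    have hne : (s \ s').Nonempty := by
      rw [← Finset.card_pos]; omega
    obtain ⟨a, ha⟩ := hne
    have hne' : (s' \ s).Nonempty := by
      rw [← Finset.card_pos, Finset.card_sdiff_comm (by omega : s'.card = s.card)]
      omega
    obtain ⟨b, hb⟩ := hne'
    rw [Finset.mem_sdiff] at ha hb
    set S := s.erase a with hS
    have hsS : s = insert a S := (Finset.insert_erase ha.1).symm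
    have hbS : b ∉ S := fun h' => hb.2 (Finset.mem_of_mem_erase h')
    have haS : a ∉ S := Finset.notMem_erase a s
    have hScard : S.card + 1 = k := by
      rw [hS, Finset.card_erase_of_mem ha.1]
      have := Finset.card_pos.2 ⟨a, ha.1⟩
      omega
    set s1 := insert b S with hs1
    have hs1card : s1.card = k := by rw [hs1, Finset.card_insert_of_notMem hbS]; omega
    have key : (s1 \ s').card = m := by
      have h1 : s1 \ s' = (s \ s').erase a := by
        ext x
        simp only [hs1, hS, Finset.mem_sdiff, Finset.mem_insert, Finset.mem_erase]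
        constructor
        · rintro ⟨h1 | h1, h2⟩
          · exact absurd (h1 ▸ hb.1) h2
          · exact ⟨h1.1, h1.2, h2⟩
        · rintro ⟨h1, h2, h3⟩
          exact ⟨Or.inr ⟨h1, h2⟩, h3⟩
      rw [h1, Finset.card_erase_of_mem (Finset.mem_sdiff.2 ha)]
      omega
    rw [← ih s1 s' hs1card hs' key]
    have h1 := D_eq k a b S hScard haS hbS
    have h2 := D_add k hk hV a b b0
    rw [← hsS, ← hs1, QuotientAddGroup.mk_sub] at h1
    rw [hs1, Finset.sum_insert hbS, ← hs1]
    conv_lhs => rw [show (∑ x ∈ s, D k x b0) = ∑ x ∈ insert a S, D k x b0 by rw [← hsS]]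
    rw [Finset.sum_insert haS, ← h2, h1]
    abel

lemma generic {Q : Type*} [AddCommGroup Q] (q : (Finset V → ℤ) →+ Q) (κ : Q) (d : V → Q) (k : ℕ)
    (hk : 1 ≤ k) (h : ∀ s : Finset V, s.card = k → q (e s) = κ + ∑ a ∈ s, d a)
    (w : Finset V → ℤ) (hw : ∀ s, s.card ≠ k → w s = 0)
    (hdeg : ∀ v : V, ∑ s with v ∈ s, w s = 0) : q w = 0 := by
  have hws : w = ∑ s, w s • e s := by
    funext t
    rw [Finset.sum_apply]
    simp [e, Pi.single_apply]
  have hsum : ∑ s, w s = 0 := by
    have h1 : ∑ v : V, ∑ s with v ∈ s, w s = ∑ s, (s.card : ℤ) * w s := by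
      simp_rw [Finset.sum_filter]
      rw [Finset.sum_comm]
      refine Finset.sum_congr rfl fun s _ => ?_
      rw [← Finset.sum_filter, Finset.sum_const]
      simp
    have h2 : ∑ s, (s.card : ℤ) * w s = (k : ℤ) * ∑ s, w s := by
      rw [Finset.mul_sum]
      refine Finset.sum_congr rfl fun s _ => ?_
      by_cases h : s.card = k
      · rw [h]
      · rw [hw s h]; ring
    simp_rw [hdeg] at h1
    rw [h2] at h1
    simp only [Finset.sum_const_zero] at h1
    have hk0 : (k : ℤ) ≠ 0 := by exact_mod_cast (by omega : k ≠ 0)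
    rcases mul_eq_zero.1 h1.symm with h | h
    · exact absurd h hk0
    · exact h
  rw [hws, map_sum]
  have h3 : ∀ s : Finset V, q (w s • e s) = w s • κ + ∑ a ∈ s, w s • d a := by
    intro s
    rw [map_zsmul]
    by_cases hs : s.card = k
    · rw [h s hs, smul_add, Finset.smul_sum]
    · rw [hw s hs]; simp
  simp_rw [h3]
  rw [Finset.sum_add_distrib, ← Finset.sum_smul, hsum, zero_smul, zero_add]
  have h5 : ∑ s : Finset V, ∑ a ∈ s, w s • d a =
      ∑ a : V, (∑ s with a ∈ s, w s) • d a := by
    have h6 : ∀ s : Finset V, ∑ a ∈ s, w s • d a =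
        ∑ a : V, if a ∈ s then w s • d a else 0 := by
      intro s
      rw [Finset.sum_ite_mem, Finset.univ_inter]
    simp_rw [h6]
    rw [Finset.sum_comm]
    refine Finset.sum_congr rfl fun a _ => ?_
    rw [Finset.sum_smul, Finset.sum_filter]
  rw [h5]
  simp [hdeg]

/-- a weighting of the `k`-sets all of whose vertex degrees vanish is a combination of octahedra -/
theorem null_mem (k : ℕ) (hk : 1 ≤ k) (hV : k + 2 ≤ Fintype.card V) (w : Finset V → ℤ)
    (hw : ∀ s, s.card ≠ k → w s = 0)
    (hdeg : ∀ v : V, ∑ s with v ∈ s, w s = 0) : w ∈ O (V := V) k := by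
  have hne : Nonempty V := Fintype.card_pos_iff.1 (by omega)
  obtain ⟨b0⟩ := hne
  obtain ⟨s0, hs0, -⟩ := exists_avoid (V := V) k ∅ (by simp; omega)
  have hc := fun s (hs : s.card = k) => const k hk hV b0 _ s s0 hs hs0 rfl
  rw [← QuotientAddGroup.eq_zero_iff]
  refine generic (QuotientAddGroup.mk' (O (V := V) k)) (QuotientAddGroup.mk (e s0) - ∑ a ∈ s0, D k a b0)
    (fun a => D k a b0) k hk (fun s hs => ?_) w hw hdeg
  rw [← sub_eq_iff_eq_add]
  exact hc s hs

end Tcs70
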