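import Pool.Agent.H.Tcs70.Cone

set_option autoImplicit false
set_option linter.unusedSectionVars false

namespace Tcs70

open Finset

section cfg

variable {V : Type*} [Fintype V] [DecidableEq V]

lemma swap_map_of_mem (u v : V) (s : Finset V) (hu : u ∈ s) (hv : v ∈ s) :
    s.map (Equiv.swap u v).toEmbedding = s := by
  ext x
  rw [Finset.mem_map_equiv, Equiv.symm_swap]
  by_cases hxu : x = u
  · subst hxu; simp [hu, hv]
  · by_cases hxv : x = v
    · subst hxv; simp [hu, hv]
    · rw [Equiv.swap_apply_of_ne_of_ne hxu hxv]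

lemma ab_mem {P : Type*} [Fintype P] [DecidableEq P] (E : P → Finset V) (k : ℕ) (p1 p2 : P)
    (h12 : p1 ≠ p2) (hc1 : (E p1).card = k) (hc2 : (E p2).card = k)
    (hdis : Disjoint (E p1) (E p2)) (x y : V) (hx : x ∈ E p1) (hy : y ∈ E p2)
    (hE : ∀ p, p ≠ p1 → p ≠ p2 → (x ∈ E p ↔ y ∈ E p))
    (a b : V) (A B : Finset V) (hab : a ≠ b) (hA : A.card + 1 = k) (hB : B.card + 1 = k)
    (hAB : Disjoint A B) (haA : a ∉ A) (hbA : b ∉ A) (haB : a ∉ B) (hbB : b ∉ B) :
    (e (insert a A) - e (insert b A)) - (e (insert a B) - e (insert b B)) ∈ L E := by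
  have hx2 : x ∉ E p2 := Finset.disjoint_left.1 hdis hx
  have hy1 : y ∉ E p1 := Finset.disjoint_right.1 hdis hy
  have hxy : x ≠ y := fun h => hx2 (h ▸ hy)
  set R1 := (E p1).erase x with hR1
  set R2 := (E p2).erase y with hR2
  have hE1 : E p1 = insert x R1 := (Finset.insert_erase hx).symm
  have hE2 : E p2 = insert y R2 := (Finset.insert_erase hy).symm
  have hxR1 : x ∉ R1 := Finset.notMem_erase x _
  have hyR2 : y ∉ R2 := Finset.notMem_erase y _
  have hxR2 : x ∉ R2 := fun h => hx2 (Finset.mem_of_mem_erase h)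
  have hyR1 : y ∉ R1 := fun h => hy1 (Finset.mem_of_mem_erase h)
  have hR12 : Disjoint R1 R2 :=
    Finset.disjoint_of_subset_left (Finset.erase_subset _ _)
      (Finset.disjoint_of_subset_right (Finset.erase_subset _ _) hdis)
  have hcR1 : R1.card = A.card := by
    have h1 : (E p1).card = R1.card + 1 := by rw [hE1, Finset.card_insert_of_notMem hxR1]
    omega
  have hcR2 : R2.card = B.card := by
    have h1 : (E p2).card = R2.card + 1 := by rw [hE2, Finset.card_insert_of_notMem hyR2]
    omega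
  let ε1 : R1 ≃ A := Finset.equivOfCardEq hcR1
  let ε2 : R2 ≃ B := Finset.equivOfCardEq hcR2
  let f : Fin 2 ⊕ (R1 ⊕ R2) → V := Sum.elim ![x, y] (Sum.elim (fun x => (x : V)) (fun x => (x : V)))
  let g : Fin 2 ⊕ (R1 ⊕ R2) → V :=
    Sum.elim ![a, b] (Sum.elim (fun x => (ε1 x : V)) (fun x => (ε2 x : V)))
  have hf : Function.Injective f := by
    refine Function.Injective.sumElim ?_ (Function.Injective.sumElim Subtype.val_injective
      Subtype.val_injective ?_) ?_
    · intro i j
      fin_cases i <;> fin_cases j <;> simp [hxy, hxy.symm]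
    · intro u v h
      exact Finset.disjoint_left.1 hR12 u.2 (h ▸ v.2)
    · intro i u h
      rcases u with u | u
      · have hu := u.2
        simp only [Sum.elim_inl] at h
        rw [← h] at hu
        fin_cases i
        · exact hxR1 hu
        · exact hyR1 hu
      · have hu := u.2
        simp only [Sum.elim_inr] at h
        rw [← h] at hu
        fin_cases i
        · exact hxR2 hu
        · exact hyR2 hu
  have hg : Function.Injective g := by
    refine Function.Injective.sumElim ?_ (Function.Injective.sumElim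
      (Subtype.val_injective.comp ε1.injective) (Subtype.val_injective.comp ε2.injective) ?_) ?_
    · intro i j
      fin_cases i <;> fin_cases j <;> simp [hab, hab.symm]
    · intro u v h
      have hv := (ε2 v).2
      rw [← h] at hv
      exact Finset.disjoint_left.1 hAB (ε1 u).2 hv
    · intro i u h
      rcases u with u | u
      · have hu := (ε1 u).2
        simp only [Sum.elim_inl] at h
        rw [← h] at hu
        fin_cases i
        · exact haA hu
        · exact hbA hu
      · have hu := (ε2 u).2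
        simp only [Sum.elim_inr] at h
        rw [← h] at hu
        fin_cases i
        · exact haB hu
        · exact hbB hu
  obtain ⟨σ, hσ⟩ := exists_perm f g hf hg
  have h1 : σ x = a := hσ (Sum.inl 0)
  have h2 : σ y = b := hσ (Sum.inl 1)
  have hRA : R1.map σ.toEmbedding = A := by
    ext z
    rw [Finset.mem_map]
    constructor
    · rintro ⟨u, hu, rfl⟩
      have h5 := hσ (Sum.inr (Sum.inl ⟨u, hu⟩))
      simp only [f, g, Sum.elim_inr, Sum.elim_inl] at h5
      rw [Equiv.coe_toEmbedding, h5]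
      exact (ε1 _).2
    · intro hz
      refine ⟨(ε1.symm ⟨z, hz⟩ : V), (ε1.symm ⟨z, hz⟩).2, ?_⟩
      have h5 := hσ (Sum.inr (Sum.inl (ε1.symm ⟨z, hz⟩)))
      simp only [f, g, Sum.elim_inr, Sum.elim_inl, Equiv.apply_symm_apply] at h5
      exact h5
  have hRB : R2.map σ.toEmbedding = B := by
    ext z
    rw [Finset.mem_map]
    constructor
    · rintro ⟨u, hu, rfl⟩
      have h5 := hσ (Sum.inr (Sum.inr ⟨u, hu⟩))
      simp only [f, g, Sum.elim_inr] at h5
      rw [Equiv.coe_toEmbedding, h5]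
      exact (ε2 _).2
    · intro hz
      refine ⟨(ε2.symm ⟨z, hz⟩ : V), (ε2.symm ⟨z, hz⟩).2, ?_⟩
      have h5 := hσ (Sum.inr (Sum.inr (ε2.symm ⟨z, hz⟩)))
      simp only [f, g, Sum.elim_inr, Equiv.apply_symm_apply] at h5
      exact h5
  set τ := Equiv.swap x y with hτ
  have hkey : (e (insert a A) - e (insert b A)) - (e (insert a B) - e (insert b B)) =
      vec E σ - vec E (σ * τ) := by
    rw [vec, vec, ← Finset.sum_sub_distrib, Fintype.sum_eq_add p1 p2 h12]
    · have q1 : (E p1).map τ.toEmbedding = insert y R1 := by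
        rw [hE1, Finset.map_insert, swap_map_of_notMem x y R1 hxR1 hyR1]
        simp [hτ]
      have q2 : (E p2).map τ.toEmbedding = insert x R2 := by
        rw [hE2, Finset.map_insert, swap_map_of_notMem x y R2 hxR2 hyR2]
        simp [hτ]
      rw [map_mul, map_mul, q1, q2, hE1, hE2]
      simp only [Finset.map_insert, hRA, hRB, Equiv.coe_toEmbedding, h1, h2]
      abel
    · rintro p ⟨hp1, hp2⟩
      have h3 : (E p).map τ.toEmbedding = E p := by
        by_cases h : x ∈ E p
        · exact swap_map_of_mem x y _ h ((hE p hp1 hp2).1 h)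
        · exact swap_map_of_notMem x y _ h (fun h' => h ((hE p hp1 hp2).2 h'))
      rw [map_mul, h3, sub_self]
  rw [hkey]
  exact (L E).sub_mem (AddSubgroup.subset_closure ⟨σ, rfl⟩)
    (AddSubgroup.subset_closure ⟨σ * τ, rfl⟩)

theorem octs_le2 {P : Type*} [Fintype P] [DecidableEq P] (E : P → Finset V) (k : ℕ) (p1 p2 : P)
    (h12 : p1 ≠ p2) (hc1 : (E p1).card = k) (hc2 : (E p2).card = k)
    (hdis : Disjoint (E p1) (E p2)) (x y : V) (hx : x ∈ E p1) (hy : y ∈ E p2)
    (hE : ∀ p, p ≠ p1 → p ≠ p2 → (x ∈ E p ↔ y ∈ E p))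
    (hV : 2 * k + 1 ≤ Fintype.card V) : O (V := V) k ≤ L E := by
  rw [O, AddSubgroup.closure_le]
  rintro z ⟨S, a, b, c, d, hS, haS, hbS, hcS, hdS, hab, hac, had, hbc, hbd, hcd, rfl⟩
  obtain ⟨T, hT, hav⟩ := exists_avoid (V := V) (k - 1)
    (insert a (insert b (insert c (insert d S)))) (by
      rw [Finset.card_insert_of_notMem (by simp [hab, hac, had, haS]),
        Finset.card_insert_of_notMem (by simp [hbc, hbd, hbS]),
        Finset.card_insert_of_notMem (by simp [hcd, hcS]),
        Finset.card_insert_of_notMem hdS]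
      omega)
  have haT : a ∉ T := hav a (by simp)
  have hbT : b ∉ T := hav b (by simp)
  have hcT : c ∉ T := hav c (by simp)
  have hdT : d ∉ T := hav d (by simp)
  have hST : Disjoint S T := Finset.disjoint_left.2 fun u hu => hav u (by simp [hu])
  have h1 := ab_mem E k p1 p2 h12 hc1 hc2 hdis x y hx hy hE a b (insert c S) T hab
    (by rw [Finset.card_insert_of_notMem hcS]; omega) (by omega)
    (Finset.disjoint_insert_left.2 ⟨hcT, hST⟩) (by simp [hac, haS]) (by simp [hbc, hbS]) haT hbT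
  have h2 := ab_mem E k p1 p2 h12 hc1 hc2 hdis x y hx hy hE a b (insert d S) T hab
    (by rw [Finset.card_insert_of_notMem hdS]; omega) (by omega)
    (Finset.disjoint_insert_left.2 ⟨hdT, hST⟩) (by simp [had, haS]) (by simp [hbd, hbS]) haT hbT
  have h3 := (L E).sub_mem h1 h2
  have h4 : e (insert a (insert c S)) - e (insert b (insert c S)) - e (insert a (insert d S)) +
      e (insert b (insert d S)) =
      (e (insert a (insert c S)) - e (insert b (insert c S)) - (e (insert a T) - e (insert b T))) -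
      (e (insert a (insert d S)) - e (insert b (insert d S)) -
        (e (insert a T) - e (insert b T))) := by abel
  rw [h4]
  exact h3

end cfg

/-- the windows of the wreath of the standard cyclic ordering -/
def wr (n k : ℕ) (hn : 0 < n) (p : Fin (n / Nat.gcd n k)) : Finset (Fin n) :=
  (univ : Finset (Fin k)).image (fun j => ⟨(p.val * k + j.val) % n, Nat.mod_lt _ hn⟩)

lemma emod_lt' (n : ℕ) (hn : 0 < n) (z : ℤ) : z % (n : ℤ) < n :=
  Int.emod_lt_of_pos z (by exact_mod_cast hn)

lemma emod_nonneg' (n : ℕ) (hn : 0 < n) (z : ℤ) : 0 ≤ z % (n : ℤ) :=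
  Int.emod_nonneg z (by exact_mod_cast hn.ne')

lemma mem_wr (n k : ℕ) (hn : 0 < n) (hk : k ≤ n) (p : Fin (n / Nat.gcd n k)) (v : Fin n) :
    v ∈ wr n k hn p ↔ ((v.val : ℤ) - p.val * k) % n < k := by
  simp only [wr, Finset.mem_image, Finset.mem_univ, true_and]
  constructor
  · rintro ⟨j, rfl⟩
    have h1 : ((((p.val * k + j.val) % n : ℕ) : ℤ) - p.val * k) % n = (j.val : ℤ) := by
      push_cast
      rw [Int.emod_sub_emod]
      rw [show ((p.val : ℤ) * k + j.val - p.val * k) = j.val by ring]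
      exact Int.emod_eq_of_lt (by positivity) (by exact_mod_cast j.2.trans_le hk)
    simp only
    rw [h1]
    exact_mod_cast j.2
  · intro h
    have h0 := emod_nonneg' n hn ((v.val : ℤ) - p.val * k)
    obtain ⟨j, hj⟩ := Int.eq_ofNat_of_zero_le h0
    rw [hj] at h
    refine ⟨⟨j, by exact_mod_cast h⟩, ?_⟩
    apply Fin.ext
    simp only
    have h2 : (((p.val * k + j) % n : ℕ) : ℤ) = v.val := by
      push_cast
      have h3 : ((p.val : ℤ) * k + j) % n = (v.val : ℤ) % n := by
        have h4 : (j : ℤ) = ((v.val : ℤ) - p.val * k) % n := hj.symm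
        rw [h4, Int.add_emod_emod]
        congr 1
        ring
      rw [h3]
      exact Int.emod_eq_of_lt (by positivity) (by exact_mod_cast v.2)
    exact_mod_cast h2

lemma wr_card (n k : ℕ) (hn : 0 < n) (hk : k ≤ n) (p : Fin (n / Nat.gcd n k)) :
    (wr n k hn p).card = k := by
  rw [wr, Finset.card_image_of_injective, Finset.card_univ, Fintype.card_fin]
  intro i j h
  simp only [Fin.mk.injEq] at h
  have h1 : (p.val * k + i.val) ≡ (p.val * k + j.val) [MOD n] := h
  have h2 := Nat.ModEq.add_left_cancel' _ h1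
  have h3 := Nat.ModEq.eq_of_lt_of_lt h2 (i.2.trans_le hk) (j.2.trans_le hk)
  exact Fin.ext h3

/-- the starts of the windows are distinct -/
lemma start_inj (n k : ℕ) (hn : 0 < n) (p q : Fin (n / Nat.gcd n k))
    (h : (n : ℤ) ∣ (p.val : ℤ) * k - q.val * k) : p = q := by
  have hg : 0 < Nat.gcd n k := Nat.gcd_pos_of_pos_left _ hn
  have h1 : ((n / Nat.gcd n k : ℕ) : ℤ) ∣ (p.val : ℤ) - q.val := by
    have h2 : ((n / Nat.gcd n k : ℕ) : ℤ) * (Nat.gcd n k : ℕ) ∣
        (((p.val : ℤ) - q.val) * ((k / Nat.gcd n k : ℕ) : ℤ)) * (Nat.gcd n k : ℕ) := by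
      have e1 : ((n / Nat.gcd n k : ℕ) : ℤ) * (Nat.gcd n k : ℕ) = n := by
        exact_mod_cast Nat.div_mul_cancel (Nat.gcd_dvd_left n k)
      have e2 : ((k / Nat.gcd n k : ℕ) : ℤ) * (Nat.gcd n k : ℕ) = k := by
        exact_mod_cast Nat.div_mul_cancel (Nat.gcd_dvd_right n k)
      rw [e1, mul_assoc, e2, sub_mul]
      exact h
    have h3 := Int.dvd_of_mul_dvd_mul_right (by exact_mod_cast hg.ne') h2
    have h4 : IsCoprime ((n / Nat.gcd n k : ℕ) : ℤ) ((k / Nat.gcd n k : ℕ) : ℤ) :=
      Nat.isCoprime_iff_coprime.2 (Nat.coprime_div_gcd_div_gcd hg)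
    exact h4.dvd_of_dvd_mul_right h3
  have h5 : ((p.val : ℤ) - q.val) = 0 := by
    refine Int.eq_zero_of_abs_lt_dvd h1 ?_
    have h6 := p.2
    have h7 := q.2
    rw [abs_lt]
    constructor <;> omega
  exact Fin.ext (by omega)

lemma wr_deg (n k : ℕ) (hn : 0 < n) (hk : k ≤ n) (v : Fin n) :
    #{p | v ∈ wr n k hn p} = k / Nat.gcd n k := by
  classical
  have hg : 0 < Nat.gcd n k := Nat.gcd_pos_of_pos_left _ hn
  have hN : 0 < n / Nat.gcd n k := Nat.div_pos (Nat.le_of_dvd hn (Nat.gcd_dvd_left n k)) hg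
  have hcount : #{j ∈ Finset.range k | j ≡ v.val [MOD Nat.gcd n k]} = k / Nat.gcd n k := by
    rw [← Nat.count_eq_card_filter_range, Nat.count_modEq_card _ hg]
    have h0 : k % Nat.gcd n k = 0 := Nat.mod_eq_zero_of_dvd (Nat.gcd_dvd_right n k)
    simp [h0]
  rw [← hcount]
  have hgn : ((Nat.gcd n k : ℕ) : ℤ) ∣ (n : ℤ) := by exact_mod_cast Nat.gcd_dvd_left n k
  have hgk : ((Nat.gcd n k : ℕ) : ℤ) ∣ (k : ℤ) := by exact_mod_cast Nat.gcd_dvd_right n k
  refine Finset.card_bij (fun p _ => (((v.val : ℤ) - p.val * k) % n).toNat) ?_ ?_ ?_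
  · intro p hp
    rw [Finset.mem_filter, mem_wr n k hn hk] at hp
    have h0 := emod_nonneg' n hn ((v.val : ℤ) - p.val * k)
    rw [Finset.mem_filter, Finset.mem_range]
    refine ⟨by have := hp.2; omega, ?_⟩
    rw [← Int.natCast_modEq_iff, Int.toNat_of_nonneg h0]
    have h1 : ((v.val : ℤ) - p.val * k) % n ≡ (v.val : ℤ) - p.val * k [ZMOD (Nat.gcd n k : ℕ)] :=
      (Int.mod_modEq _ _).of_dvd hgn
    refine h1.trans ?_
    have h2 : (p.val : ℤ) * k ≡ 0 [ZMOD (Nat.gcd n k : ℕ)] :=
      Int.modEq_zero_iff_dvd.2 (Dvd.dvd.mul_left hgk _)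
    have h3 := (Int.ModEq.refl (n := ((Nat.gcd n k : ℕ) : ℤ)) (v.val : ℤ)).sub h2
    rwa [sub_zero] at h3
  · intro p hp q hq h
    have h0 := emod_nonneg' n hn ((v.val : ℤ) - p.val * k)
    have h0' := emod_nonneg' n hn ((v.val : ℤ) - q.val * k)
    have h1 : ((v.val : ℤ) - p.val * k) % n = ((v.val : ℤ) - q.val * k) % n := by
      have h' : (((v.val : ℤ) - p.val * k) % n).toNat = (((v.val : ℤ) - q.val * k) % n).toNat := h
      omega
    have h2 := Int.emod_emod_of_dvd
    have h3 : (n : ℤ) ∣ ((v.val : ℤ) - q.val * k) - ((v.val : ℤ) - p.val * k) :=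
      Int.ModEq.dvd h1
    apply start_inj n k hn
    have h4 : ((v.val : ℤ) - q.val * k) - ((v.val : ℤ) - p.val * k) =
      (p.val : ℤ) * k - q.val * k := by ring
    rwa [h4] at h3
  · intro j hj
    rw [Finset.mem_filter, Finset.mem_range] at hj
    obtain ⟨hjk, hjv⟩ := hj
    have h1 : ((Nat.gcd n k : ℕ) : ℤ) ∣ (v.val : ℤ) - j :=
      Int.ModEq.dvd (Int.natCast_modEq_iff.2 hjv)
    obtain ⟨q, hq⟩ := h1
    have hbez := Nat.gcd_eq_gcd_ab n k
    set a := Nat.gcdA n k
    set b := Nat.gcdB n k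
    set N : ℕ := n / Nat.gcd n k with hNdef
    have h2 := emod_nonneg' N hN (b * q)
    have h3 := emod_lt' N hN (b * q)
    refine ⟨⟨((b * q) % (N : ℤ)).toNat, by omega⟩, ?_, ?_⟩
    all_goals
      have h4 : ((((b * q) % (N : ℤ)).toNat : ℕ) : ℤ) = (b * q) % (N : ℤ) :=
        Int.toNat_of_nonneg h2
      have h5 : ((v.val : ℤ) - ((b * q) % (N : ℤ)) * k) % n = j := by
        have h6 : (n : ℤ) ∣ (N : ℤ) * k := by
          have h7 : (N : ℤ) * (Nat.gcd n k : ℕ) = n := by
            exact_mod_cast Nat.div_mul_cancel (Nat.gcd_dvd_left n k)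
          obtain ⟨t, ht⟩ := hgk
          exact ⟨t, by rw [← h7, ht]; ring⟩
        have h8 : (v.val : ℤ) - ((b * q) % (N : ℤ)) * k ≡ j [ZMOD n] := by
          have h9 : (b * q) % (N : ℤ) = b * q - N * ((b * q) / N) := by
            have := Int.emod_add_mul_ediv (b * q) N
            linarith
          obtain ⟨t, ht⟩ := h6
          refine (Int.modEq_iff_dvd.2 ⟨-(a * q) - t * ((b * q) / N), ?_⟩)
          rw [h9]
          have h10 : (v.val : ℤ) = j + (Nat.gcd n k : ℕ) * q := by linarith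
          rw [h10, hbez]
          have h11 : (N : ℤ) * ((b * q) / N) * k = n * t * ((b * q) / N) := by rw [← ht]; ring
          linear_combination (-1 : ℤ) * h11
        have h12 : ((v.val : ℤ) - ((b * q) % (N : ℤ)) * k) % n = (j : ℤ) % n := h8
        rw [h12]
        exact Int.emod_eq_of_lt (by positivity) (by exact_mod_cast hjk.trans_le hk)
    · rw [Finset.mem_filter, mem_wr n k hn hk]
      refine ⟨Finset.mem_univ _, ?_⟩
      simp only
      rw [h4, h5]
      exact_mod_cast hjk
    · simp only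
      rw [h4, h5]
      simp

/-- the complement of a window of length `k` is a window of length `n - k` -/
lemma wr_compl (n k k' : ℕ) (hn : 0 < n) (hkk : k + k' = n)
    (p : Fin (n / Nat.gcd n k)) (q : Fin (n / Nat.gcd n k'))
    (hpq : p.val + q.val + 1 = n / Nat.gcd n k) : (wr n k hn p)ᶜ = wr n k' hn q := by
  ext v
  rw [Finset.mem_compl, mem_wr n k hn (by omega), mem_wr n k' hn (by omega)]
  have h7 : ((n / Nat.gcd n k : ℕ) : ℤ) * (Nat.gcd n k : ℕ) = n := by
    exact_mod_cast Nat.div_mul_cancel (Nat.gcd_dvd_left n k)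
  have hgk : ((Nat.gcd n k : ℕ) : ℤ) ∣ (k : ℤ) := by exact_mod_cast Nat.gcd_dvd_right n k
  have hk' : (k' : ℤ) = n - k := by
    have : (k : ℤ) + k' = n := by exact_mod_cast hkk
    linarith
  have h1 : (v.val : ℤ) - q.val * k' ≡ ((v.val : ℤ) - p.val * k) - k [ZMOD n] := by
    obtain ⟨t, ht⟩ := hgk
    refine (Int.modEq_iff_dvd.2 ⟨q.val - t, ?_⟩)
    have h2 : (q.val : ℤ) = (n / Nat.gcd n k : ℕ) - p.val - 1 := by
      have : (p.val : ℤ) + q.val + 1 = (n / Nat.gcd n k : ℕ) := by exact_mod_cast hpq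
      linarith
    have h8 : ((n / Nat.gcd n k : ℕ) : ℤ) * k = n * t := by
      rw [ht]
      linear_combination t * h7
    rw [hk', h2]
    linear_combination (-1 : ℤ) * h8
  have h0 := emod_nonneg' n hn ((v.val : ℤ) - p.val * k)
  have h0' := emod_lt' n hn ((v.val : ℤ) - p.val * k)
  have h2 : ((v.val : ℤ) - q.val * k') % n = (((v.val : ℤ) - p.val * k) % n - k) % n := by
    rw [Int.emod_sub_emod]
    exact h1
  rw [h2]
  set t := ((v.val : ℤ) - p.val * k) % n with ht
  constructor
  · intro h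
    rw [Int.emod_eq_of_lt (by omega) (by omega)]
    omega
  · intro h h3
    have h4 : (t - k) % n = t - k + n := by
      rw [← Int.add_emod_right, Int.emod_eq_of_lt (by omega) (by omega)]
    omega

theorem octs_le_wr (n k : ℕ) (hn : 0 < n) (hk1 : 1 ≤ k) (h2k : 2 * k + 1 ≤ n) :
    O (V := Fin n) k ≤ L (wr n k hn) := by
  classical
  have hkn : k ≤ n := by omega
  have hg : 0 < Nat.gcd n k := Nat.gcd_pos_of_pos_left _ hn
  have hgk : Nat.gcd n k ≤ k := Nat.le_of_dvd (by omega) (Nat.gcd_dvd_right n k)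
  have hN : 1 < n / Nat.gcd n k := by
    rw [Nat.lt_div_iff_mul_lt' (Nat.gcd_dvd_left n k)]
    omega
  have hz : ∀ z : ℤ, 0 ≤ z → z < n → z % n = z := fun z h h' => Int.emod_eq_of_lt h h'
  have hzn : ∀ z : ℤ, z < 0 → -n ≤ z → z % n = z + n := fun z h h' => by
    rw [← Int.add_emod_right, Int.emod_eq_of_lt (by omega) (by omega)]
  refine octs_le2 (wr n k hn) k ⟨0, by omega⟩ ⟨1, hN⟩ (by simp) (wr_card n k hn hkn _)
    (wr_card n k hn hkn _) ?_ ⟨k - 1, by omega⟩ ⟨k, by omega⟩ ?_ ?_ ?_ (by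
      rw [Fintype.card_fin]; exact h2k)
  · rw [Finset.disjoint_left]
    intro v h1 h2
    rw [mem_wr n k hn hkn] at h1 h2
    simp only [Nat.cast_zero, zero_mul, sub_zero, Nat.cast_one, one_mul] at h1 h2
    rw [hz _ (by positivity) (by exact_mod_cast v.2)] at h1
    rw [hzn _ (by omega) (by omega)] at h2
    omega
  · rw [mem_wr n k hn hkn]
    simp only [Nat.cast_zero, zero_mul, sub_zero]
    rw [hz _ (by positivity) (by omega)]
    omega
  · rw [mem_wr n k hn hkn]
    simp only [Nat.cast_one, one_mul, sub_self]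
    rw [hz _ (by omega) (by omega)]
    omega
  · intro p hp0 hp1
    rw [mem_wr n k hn hkn, mem_wr n k hn hkn]
    have h0 := emod_nonneg' n hn ((k : ℤ) - p.val * k)
    have h0' := emod_lt' n hn ((k : ℤ) - p.val * k)
    have ht0 : ((k : ℤ) - p.val * k) % n ≠ 0 := by
      intro h
      apply hp1
      apply start_inj n k hn
      have h1 : (n : ℤ) ∣ (k : ℤ) - p.val * k := Int.dvd_of_emod_eq_zero h
      rw [← dvd_neg] at h1
      simp only [Nat.cast_one, one_mul]
      rwa [neg_sub] at h1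
    have htk : ((k : ℤ) - p.val * k) % n ≠ k := by
      intro h
      apply hp0
      apply start_inj n k hn
      have h1 : (k : ℤ) - p.val * k ≡ k [ZMOD n] := by
        have h2 : (k : ℤ) % n = k := hz _ (by positivity) (by omega)
        exact h.trans h2.symm
      have h3 := Int.ModEq.dvd h1
      simp only [Nat.cast_zero, zero_mul]
      rwa [sub_sub_cancel] at h3
    have h3 : ((((k - 1 : ℕ) : ℤ)) - p.val * k) % n = (((k : ℤ) - p.val * k) % n - 1) % n := by
      rw [Int.emod_sub_emod]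
      congr 1
      push_cast [hk1]
      ring
    simp only
    rw [h3]
    set t := ((k : ℤ) - p.val * k) % n with ht
    rw [hz _ (by omega) (by omega)]
    constructor <;> intro h <;> omega

end Tcs70
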